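import Pool.Agent.H37.CNZ.Stmts

/-!
# Row CIR of board `cnz`: some `r + t ^ a` is not of the form `u ^ p - u`
-/

set_option autoImplicit false

namespace Pool.CND

open Polynomial

theorem cir_poly_H66 {k : Type} [Field k] (p : ℕ) (hp : p.Prime) (P Q : k[X]) (hQ : Q ≠ 0)
    (a a' : ℕ) (h : a' < a) (hpa : ¬ p ∣ a)
    (heq : P ^ p - P * Q ^ (p - 1) = (X ^ a - X ^ a') * Q ^ p) : False := by
  have hp1 : 1 < p := hp.one_lt
  have hX : (X ^ a - X ^ a' : k[X]).natDegree = a := by
    rw [natDegree_sub_eq_left_of_natDegree_lt]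
    · exact natDegree_X_pow a
    · rw [natDegree_X_pow, natDegree_X_pow]; exact h
  have hX0 : (X ^ a - X ^ a' : k[X]) ≠ 0 := by
    intro h0
    rw [h0, natDegree_zero] at hX
    omega
  have hR : ((X ^ a - X ^ a') * Q ^ p : k[X]).natDegree = a + p * Q.natDegree := by
    rw [natDegree_mul hX0 (pow_ne_zero _ hQ), hX, natDegree_pow]
  have hM : (P * Q ^ (p - 1)).natDegree ≤ P.natDegree + (p - 1) * Q.natDegree := by
    refine natDegree_mul_le.trans ?_
    rw [natDegree_pow]
  obtain ⟨q, rfl⟩ : ∃ q, p = q + 2 := ⟨p - 2, by omega⟩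
  have e1 : q + 2 - 1 = q + 1 := rfl
  rw [e1] at hM
  rcases lt_or_ge Q.natDegree P.natDegree with hlt | hge
  · have hL : (P ^ (q + 2) - P * Q ^ (q + 2 - 1)).natDegree = (q + 2) * P.natDegree := by
      rw [natDegree_sub_eq_left_of_natDegree_lt]
      · rw [natDegree_pow]
      · rw [natDegree_pow, e1]
        refine lt_of_le_of_lt hM ?_
        nlinarith
    rw [heq, hR] at hL
    apply hpa
    have h2 : a = (q + 2) * (P.natDegree - Q.natDegree) := by
      rw [Nat.mul_sub]; omega
    exact ⟨_, h2⟩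
  · have hL : (P ^ (q + 2) - P * Q ^ (q + 2 - 1)).natDegree ≤ (q + 2) * Q.natDegree := by
      refine (natDegree_sub_le _ _).trans (max_le ?_ ?_)
      · rw [natDegree_pow]; exact Nat.mul_le_mul_left _ hge
      · rw [e1]
        refine hM.trans ?_
        nlinarith
    rw [heq, hR] at hL
    omega

theorem cir_thm : S_CIR := by
  intro p k L G _ _ _ _ _ ρ t r hp hchar hcov
  by_contra hcon
  push Not at hcon
  choose u hu using hcon
  have : Fact p.Prime := ⟨hp⟩
  have : CharP L p := charP_of_injective_algebraMap (algebraMap k L).injective p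
  have ht : ∀ g : G, ρ g t = t :=
    (hcov.fixed t).mpr (IntermediateField.mem_adjoin_simple_self k t)
  have hR : {x : L | x ^ p - x = 0}.Finite := by
    have h0 : (X ^ p - X : L[X]) ≠ 0 := FiniteField.X_pow_card_sub_X_ne_zero L hp.one_lt
    refine (Polynomial.finite_setOfPred_isRoot h0).subset ?_
    intro x hx
    simp only [Set.mem_ofPred_eq] at hx ⊢
    simp [IsRoot.def, hx]
  obtain ⟨v, hv⟩ : ∃ v : ℕ → L, v = fun n => u (p * n + 1) - u 1 := ⟨_, rfl⟩
  have hv1 : ∀ n, v n ^ p - v n = t ^ (p * n + 1) - t := by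
    intro n
    rw [hv]
    show (u (p * n + 1) - u 1) ^ p - (u (p * n + 1) - u 1) = _
    rw [sub_pow_char]
    have h1 := hu (p * n + 1)
    have h2 := hu 1
    linear_combination h1 - h2
  have hmem : ∀ n, (fun g : G => ρ g (v n) - v n) ∈
      Set.pi Set.univ (fun _ : G => {x : L | x ^ p - x = 0}) := by
    intro n g _
    show (ρ g (v n) - v n) ^ p - (ρ g (v n) - v n) = 0
    have h1 := congrArg (ρ g) (hv1 n)
    rw [map_sub, map_pow, map_sub, map_pow, ht g] at h1
    rw [sub_pow_char]
    linear_combination h1 - hv1 n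
  obtain ⟨n, m, hnm, hEq⟩ := Set.Finite.exists_lt_map_eq_of_forall_mem hmem
    (Set.Finite.pi fun _ => hR)
  have hfix : ∀ g : G, ρ g (v m - v n) = v m - v n := by
    intro g
    have h1 : ρ g (v n) - v n = ρ g (v m) - v m := congrFun hEq g
    rw [map_sub]
    linear_combination -h1
  have hin := (hcov.fixed _).mp hfix
  rw [IntermediateField.mem_adjoin_simple_iff] at hin
  obtain ⟨P, Q, hPQ⟩ := hin
  have hw : (v m - v n) ^ p - (v m - v n) = t ^ (p * m + 1) - t ^ (p * n + 1) := by
    rw [sub_pow_char]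
    linear_combination hv1 m - hv1 n
  have htr := hcov.trans
  rw [transcendental_iff] at htr
  have hpos : 0 < p := hp.pos
  by_cases hQ : Q = 0
  · rw [hQ, map_zero, div_zero] at hPQ
    rw [hPQ, zero_pow hp.ne_zero, sub_zero] at hw
    have h2 := htr (X ^ (p * m + 1) - X ^ (p * n + 1)) (by
      rw [map_sub, map_pow, map_pow, aeval_X, ← hw])
    have h3 : (X ^ (p * m + 1) : k[X]) = X ^ (p * n + 1) := sub_eq_zero.mp h2
    have h4 := congrArg natDegree h3
    rw [natDegree_X_pow, natDegree_X_pow] at h4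
    have : p * n < p * m := Nat.mul_lt_mul_of_pos_left hnm hpos
    omega
  · have hQ' : aeval t Q ≠ 0 := fun h => hQ (htr Q h)
    refine cir_poly_H66 p hp P Q hQ (p * m + 1) (p * n + 1) ?_ ?_ ?_
    · have : p * n < p * m := Nat.mul_lt_mul_of_pos_left hnm hpos
      omega
    · intro hd
      have := (Nat.dvd_add_right (Dvd.intro m rfl)).mp hd
      exact hp.one_lt.ne' (Nat.dvd_one.mp this)
    · rw [← sub_eq_zero]
      apply htr
      rw [map_sub, map_sub, map_mul, map_mul, map_pow, map_pow, map_pow, map_sub, map_pow, map_pow,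
        aeval_X, ← hw, hPQ]
      obtain ⟨q, hq⟩ : ∃ q, p = q + 1 := ⟨p - 1, by omega⟩
      rw [hq, show q + 1 - 1 = q from rfl, div_pow]
      generalize aeval t P = A
      generalize aeval t Q = B at hQ'
      have e1 : A ^ (q + 1) / B ^ (q + 1) * B ^ (q + 1) = A ^ (q + 1) :=
        div_mul_cancel₀ _ (pow_ne_zero _ hQ')
      have e2 : A / B * B ^ (q + 1) = A * B ^ q := by
        rw [pow_succ', ← mul_assoc, div_mul_cancel₀ _ hQ']
      linear_combination -e1 + e2

end Pool.CND
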